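import Pool.Agent.H498.Sp.Count

/-! Conjugacy of involutions, and the diagonal representation. -/

set_option autoImplicit false
set_option linter.all false

namespace Pool.Agent.H498.Sp

open Matrix Module

section conj
variable {k : Type*} [Field k] [CharZero k] {V : Type*} [AddCommGroup V] [Module k V] [FiniteDimensional k V]

theorem isCompl_eig (T : Module.End k V) (hT : T * T = 1) : IsCompl (eig T 1) (eig T (-1)) := by
  have h2 : (2 : k) ≠ 0 := two_ne_zero
  have hTv : ∀ v, T (T v) = v := fun v => LinearMap.congr_fun hT v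
  constructor
  · rw [Submodule.disjoint_def]
    intro v h1 h3
    have h1' := mem_eig_one.1 h1
    have h3' := mem_eig_neg.1 h3
    rw [h1'] at h3'
    have : (2 : k) • v = 0 := by rw [two_smul]; nth_rewrite 1 [h3']; exact neg_add_cancel v
    exact (smul_eq_zero.1 this).resolve_left h2
  · rw [codisjoint_iff, eq_top_iff]
    intro v _
    have e : v = (2 : k)⁻¹ • (v + T v) + (2 : k)⁻¹ • (v - T v) := by
      rw [← smul_add, show v + T v + (v - T v) = (2 : k) • v by rw [two_smul]; abel, smul_smul,
        inv_mul_cancel₀ h2, one_smul]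
    rw [e]
    refine Submodule.add_mem_sup ?_ ?_
    · refine mem_eig_one.2 ?_
      rw [map_smul, map_add, hTv, add_comm]
    · refine mem_eig_neg.2 ?_
      rw [map_smul, map_sub, hTv, ← smul_neg, neg_sub]

theorem trace_inv (T : Module.End k V) (hT : T * T = 1) :
    LinearMap.trace k V T = 2 * (finrank k (eig T 1) : k) - finrank k V := by
  have h2 : (2 : k) ≠ 0 := two_ne_zero
  have hTv : ∀ v, T (T v) = v := fun v => LinearMap.congr_fun hT v
  have hP : LinearMap.IsProj (eig T 1) ((2 : k)⁻¹ • (1 + T)) := by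
    constructor
    · intro v
      rw [mem_eig_one]
      simp only [LinearMap.smul_apply, LinearMap.add_apply, Module.End.one_apply, map_smul, map_add, hTv]
      rw [add_comm]
    · intro v hv
      rw [mem_eig_one] at hv
      simp only [LinearMap.smul_apply, LinearMap.add_apply, Module.End.one_apply, hv]
      rw [← two_smul k v, smul_smul, inv_mul_cancel₀ h2, one_smul]
  have h3 := hP.trace
  rw [map_smul, map_add, LinearMap.trace_one, smul_eq_mul] at h3
  have h4 := congrArg (fun x => 2 * x) h3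
  simp only [← mul_assoc, mul_inv_cancel₀ h2, one_mul] at h4
  linear_combination h4

theorem finrank_inv (T : Module.End k V) (hT : T * T = 1) :
    finrank k (eig T 1) + finrank k (eig T (-1)) = finrank k V :=
  Submodule.finrank_add_eq_of_isCompl (isCompl_eig T hT)

/-- involutions with the same trace are conjugate -/
theorem exists_conj (A B : Module.End k V) (hA : A * A = 1) (hB : B * B = 1)
    (h : LinearMap.trace k V A = LinearMap.trace k V B) : ∃ e : V ≃ₗ[k] V, ∀ v, e (A v) = B (e v) := by
  have h1 : finrank k (eig A 1) = finrank k (eig B 1) := by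
    rw [trace_inv A hA, trace_inv B hB] at h
    have h2 : (2 : k) * (finrank k (eig A 1) : k) = 2 * (finrank k (eig B 1) : k) := by linear_combination h
    exact_mod_cast mul_left_cancel₀ (two_ne_zero (α := k)) h2
  have h2 : finrank k (eig A (-1)) = finrank k (eig B (-1)) := by
    have := finrank_inv A hA
    have := finrank_inv B hB
    omega
  let e1 : eig A 1 ≃ₗ[k] eig B 1 := LinearEquiv.ofFinrankEq _ _ h1
  let e2 : eig A (-1) ≃ₗ[k] eig B (-1) := LinearEquiv.ofFinrankEq _ _ h2
  let eA := Submodule.prodEquivOfIsCompl _ _ (isCompl_eig A hA)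
  let eB := Submodule.prodEquivOfIsCompl _ _ (isCompl_eig B hB)
  refine ⟨eA.symm.trans ((LinearEquiv.prodCongr e1 e2).trans eB), fun v => ?_⟩
  obtain ⟨⟨x, y⟩, rfl⟩ := eA.surjective v
  have h3 : A (eA (x, y)) = eA (x, -y) := by
    rw [Submodule.coe_prodEquivOfIsCompl', Submodule.coe_prodEquivOfIsCompl', map_add, mem_eig_one.1 x.2,
      mem_eig_neg.1 y.2]
    rfl
  rw [h3]
  simp only [LinearEquiv.trans_apply, LinearEquiv.symm_apply_apply, LinearEquiv.prodCongr_apply, map_neg]
  rw [Submodule.coe_prodEquivOfIsCompl', Submodule.coe_prodEquivOfIsCompl', map_add, mem_eig_one.1 (e1 x).2,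
    mem_eig_neg.1 (e2 y).2]
  rfl

end conj

section matrix
variable {k : Type*} [Field k] [CharZero k] {N : ℕ}

theorem isConj_inv (A B : GL (Fin N) k) (hA : A * A = 1) (hB : B * B = 1)
    (h : (A : Matrix (Fin N) (Fin N) k).trace = (B : Matrix (Fin N) (Fin N) k).trace) : IsConj A B := by
  have hA' : toLin' (A : Matrix (Fin N) (Fin N) k) * toLin' (A : Matrix (Fin N) (Fin N) k) = 1 := by
    have := congrArg Units.val hA
    rw [Module.End.mul_eq_comp, ← toLin'_mul]
    rw [Units.val_mul] at this
    rw [this]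
    exact toLin'_one
  have hB' : toLin' (B : Matrix (Fin N) (Fin N) k) * toLin' (B : Matrix (Fin N) (Fin N) k) = 1 := by
    have := congrArg Units.val hB
    rw [Module.End.mul_eq_comp, ← toLin'_mul]
    rw [Units.val_mul] at this
    rw [this]
    exact toLin'_one
  obtain ⟨e, he⟩ := exists_conj _ _ hA' hB' (by rw [trace_toLin'_eq, trace_toLin'_eq, h])
  let E : GL (Fin N) k := ⟨LinearMap.toMatrix' e.toLinearMap, LinearMap.toMatrix' e.symm.toLinearMap, by
    rw [← LinearMap.toMatrix'_comp]; simp, by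
    rw [← LinearMap.toMatrix'_comp]; simp⟩
  rw [isConj_iff]
  refine ⟨E, ?_⟩
  rw [mul_inv_eq_iff_eq_mul]
  apply Units.ext
  show LinearMap.toMatrix' e.toLinearMap * (A : Matrix (Fin N) (Fin N) k) =
    (B : Matrix (Fin N) (Fin N) k) * LinearMap.toMatrix' e.toLinearMap
  apply toLin'.injective
  rw [toLin'_mul, toLin'_mul, toLin'_toMatrix']
  exact LinearMap.ext he

/-- diagonal matrices with entries `±1` -/
def dg (N : ℕ) (k : Type*) [Field k] : (Fin N → ℤˣ) →* GL (Fin N) k where
  toFun c := ⟨diagonal fun j => ((c j : ℤ) : k), diagonal fun j => ((c j : ℤ) : k), by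
    rw [diagonal_mul_diagonal, ← diagonal_one]
    congr 1; funext j; rw [← Int.cast_mul, ← Units.val_mul, Int.units_mul_self]; simp, by
    rw [diagonal_mul_diagonal, ← diagonal_one]
    congr 1; funext j; rw [← Int.cast_mul, ← Units.val_mul, Int.units_mul_self]; simp⟩
  map_one' := by
    apply Units.ext
    simp
  map_mul' a b := by
    apply Units.ext
    simp [diagonal_mul_diagonal]

theorem dg_sq (c : Fin N → ℤˣ) : dg N k c * dg N k c = 1 := by
  rw [← map_mul]
  have : c * c = 1 := by
    funext i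
    exact Int.units_mul_self _
  rw [this, map_one]

/-- The diagonal representation: for an involution `A` whose eigenvalue `-1` has even multiplicity, at most twice
the multiplicity of the eigenvalue `1`. -/
theorem exists_diag {Γ : Type*} [Group Γ] (χ₁ χ₂ : Γ →* ℤˣ) (A : GL (Fin N) k) (hA : A * A = 1) (p q : ℕ)
    (hN : p + q = N) (htr : (A : Matrix (Fin N) (Fin N) k).trace = (p : k) - q) (hq : Even q) (hpq : q ≤ 2 * p) :
    ∃ r : Γ →* GL (Fin N) k, (∀ σ, χ₁ σ = 1 → χ₂ σ = 1 → r σ = 1) ∧
      ∀ σ, ¬ (χ₁ σ = 1 ∧ χ₂ σ = 1) → IsConj (r σ) A := by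
  obtain ⟨a, rfl⟩ := hq
  obtain ⟨b, rfl⟩ : ∃ b, p = a + b := ⟨p - a, by omega⟩
  have hcard : Fintype.card (Fin a ⊕ Fin a ⊕ Fin a ⊕ Fin b) = Fintype.card (Fin N) := by
    simp only [Fintype.card_sum, Fintype.card_fin]
    omega
  let e : (Fin a ⊕ Fin a ⊕ Fin a ⊕ Fin b) ≃ Fin N := Fintype.equivOfCardEq hcard
  let C : Γ →* (Fin N → ℤˣ) :=
    { toFun := fun σ j => Sum.elim (fun _ => χ₁ σ) (Sum.elim (fun _ => χ₂ σ) (Sum.elim (fun _ => χ₁ σ * χ₂ σ)
        (fun _ => 1))) (e.symm j)
      map_one' := by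
        funext j
        rcases e.symm j with h | h | h | h <;> simp
      map_mul' := fun σ τ => by
        funext j
        rw [Pi.mul_apply]
        rcases e.symm j with h | h | h | h
        · simp
        · simp
        · simp only [Sum.elim_inr, Sum.elim_inl, map_mul]
          exact mul_mul_mul_comm _ _ _ _
        · simp }
  refine ⟨(dg N k).comp C, fun σ h1 h2 => ?_, fun σ hσ => ?_⟩
  · have : C σ = 1 := by
      funext j
      show Sum.elim _ _ _ = _
      rw [h1, h2]
      rcases e.symm j with h | h | h | h <;> simp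
    rw [MonoidHom.comp_apply, this, map_one]
  · refine isConj_inv _ _ (dg_sq _) hA ?_
    rw [htr]
    show (diagonal fun j => ((C σ j : ℤ) : k)).trace = _
    rw [trace_diagonal]
    have h1 : ∑ j, ((C σ j : ℤ) : k) = ∑ i : (Fin a ⊕ Fin a ⊕ Fin a ⊕ Fin b), (((Sum.elim (fun _ => χ₁ σ) (Sum.elim (fun _ => χ₂ σ)
        (Sum.elim (fun _ => χ₁ σ * χ₂ σ) (fun _ => 1))) i : ℤˣ) : ℤ) : k) := by
      refine (Fintype.sum_equiv e _ _ fun i => ?_).symm
      show _ = (((Sum.elim (fun _ => χ₁ σ) (Sum.elim (fun _ => χ₂ σ) (Sum.elim (fun _ => χ₁ σ * χ₂ σ)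
        (fun _ => 1))) (e.symm (e i)) : ℤˣ) : ℤ) : k)
      rw [Equiv.symm_apply_apply]
    rw [h1]
    simp only [Fintype.sum_sum_type, Sum.elim_inl, Sum.elim_inr, Finset.sum_const, Finset.card_univ,
      Fintype.card_fin, nsmul_eq_mul]
    rcases Int.units_eq_one_or (χ₁ σ) with h3 | h3 <;> rcases Int.units_eq_one_or (χ₂ σ) with h4 | h4
    · exact absurd ⟨h3, h4⟩ hσ
    all_goals
      rw [h3, h4]
      push_cast
      simp
      ring

end matrix

end Pool.Agent.H498.Sp
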