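import Pool.Agent.H498.Sp.Dims

/-! The multiplicities of the eigenvalues of the sign matrix with three signs `-1`. -/

set_option autoImplicit false
set_option linter.all false

namespace Pool.Agent.H498.Sp

open Matrix Module

def std5 (j : ℕ) : Fin 5 → ℤˣ := fun i => if i.val < j then -1 else 1
def cnt5 (w : Fin 5 → ℤˣ) : ℕ := (Finset.univ.filter fun i => w i = -1).card

theorem cnt5_lt : ∀ w : Fin 5 → ℤˣ, cnt5 w < 6 := by decide
theorem exists_perm5 : ∀ w : Fin 5 → ℤˣ, ∃ π : Equiv.Perm (Fin 5), std5 (cnt5 w) ∘ π = w := by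
  set_option maxRecDepth 100000 in
  decide

theorem sum_cnt (μ : ℕ → ℕ) (P : (Fin 5 → ℤˣ) → Prop) [DecidablePred P] :
    ∑ w : Fin 5 → ℤˣ, (if P w then μ (cnt5 w) else 0) =
      ∑ j ∈ Finset.range 6, (Finset.univ.filter fun w => P w ∧ cnt5 w = j).card * μ j := by
  rw [← Finset.sum_fiberwise_of_maps_to (s := Finset.univ) (t := Finset.range 6) (g := cnt5)
    (fun w _ => Finset.mem_range.2 (cnt5_lt w))]
  refine Finset.sum_congr rfl fun j _ => ?_
  rw [← Finset.sum_filter, Finset.filter_filter, ← smul_eq_mul, ← Finset.sum_const]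
  have : (Finset.univ.filter fun w => cnt5 w = j ∧ P w) = Finset.univ.filter fun w => P w ∧ cnt5 w = j := by
    ext w; simp [and_comm]
  rw [this]
  refine Finset.sum_congr rfl fun w hw => ?_
  rw [(Finset.mem_filter.1 hw).2.2]

/-- three signs `-1` -/
def three : Fin 5 → ℤˣ := std5 3

section rep
variable {k : Type*} [Field k] {V : Type*} [AddCommGroup V] [Module k V] [FiniteDimensional k V]
  (ρ : symplecticGroup (Fin 5) k →* Module.End k V)

theorem finrank_eig (h2 : (2 : k) ≠ 0) (t : ℤˣ) : finrank k (eig (ρ (sgn (Fin 5) k three)) t) =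
    ∑ w : Fin 5 → ℤˣ, if w 0 * w 1 * w 2 = t then mm ρ w else 0 := by
  have e3 : three = one1 0 * one1 1 * one1 2 := by decide
  have hA : ρ (sgn (Fin 5) k three) = gg ρ 0 * gg ρ 1 * gg ρ 2 := by
    rw [e3, map_mul, map_mul, map_mul, map_mul]
    rfl
  rw [split_family h2 5 (gg ρ) (gg_sq ρ) (gg_comm ρ)]
  · refine Finset.sum_congr rfl fun w _ => ?_
    have key : ∀ v ∈ wt ρ w, ρ (sgn (Fin 5) k three) v = (((w 0 * w 1 * w 2 : ℤˣ) : ℤ) : k) • v := by
      intro v hv
      rw [mem_wt] at hv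
      rw [hA, Module.End.mul_apply, Module.End.mul_apply, hv 2, map_smul, map_smul, hv 1, map_smul, hv 0]
      rw [smul_smul, smul_smul]
      push_cast
      congr 1
      ring
    split_ifs with h
    · have : eig (ρ (sgn (Fin 5) k three)) t ⊓ wt ρ w = wt ρ w := by
        apply inf_eq_right.2
        intro v hv
        rw [mem_eig, key v hv, h]
      show finrank k (eig (ρ (sgn (Fin 5) k three)) t ⊓ wt ρ w : Submodule k V) = _
      rw [this]
      rfl
    · have : eig (ρ (sgn (Fin 5) k three)) t ⊓ wt ρ w = ⊥ := by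
        rw [eq_bot_iff]
        rintro v ⟨hv1, hv2⟩
        have h1 := mem_eig.1 hv1
        rw [key v hv2] at h1
        have h3 : w 0 * w 1 * w 2 = -t := by
          rcases Int.units_eq_one_or (w 0 * w 1 * w 2) with h3 | h3 <;>
          rcases Int.units_eq_one_or t with h4 | h4
          · exact absurd (h3.trans h4.symm) h
          · rw [h3, h4, neg_neg]
          · rw [h3, h4]
          · exact absurd (h3.trans h4.symm) h
        rw [h3] at h1
        have h5 : ((2 * ((t : ℤ)) : ℤ) : k) • v = 0 := by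
          push_cast at h1 ⊢
          rw [neg_smul] at h1
          rw [mul_smul, two_smul]
          nth_rewrite 1 [← h1]
          exact neg_add_cancel _
        have h6 : ((2 * ((t : ℤ)) : ℤ) : k) ≠ 0 := by
          rcases Int.units_eq_one_or t with h4 | h4 <;> rw [h4] <;> simpa using h2
        exact (smul_eq_zero.1 h5).resolve_left h6
      show finrank k (eig (ρ (sgn (Fin 5) k three)) t ⊓ wt ρ w : Submodule k V) = _
      rw [this, finrank_bot]
  · intro i v hv
    rw [mem_eig] at hv ⊢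
    have h1 : ρ (sgn (Fin 5) k three) (gg ρ i v) = gg ρ i (ρ (sgn (Fin 5) k three) v) := by
      rw [gg, ← Module.End.mul_apply, ← Module.End.mul_apply, ← map_mul, ← map_mul, ← map_mul, ← map_mul,
        mul_comm]
    rw [h1, hv, map_smul]

/-- **The eigenvalue `-1` has at most twice the multiplicity of the eigenvalue `1`.** -/
theorem eig_le (h2 : (2 : k) ≠ 0) (c : k) (hc : 2 * c ^ 2 = 1) (i : k) (hi : i * i = -1) :
    finrank k (eig (ρ (sgn (Fin 5) k three)) (-1)) ≤ 2 * finrank k (eig (ρ (sgn (Fin 5) k three)) 1) := by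
  set μ : ℕ → ℕ := fun j => mm ρ (std5 j) with hμ
  have hm : ∀ w, mm ρ w = μ (cnt5 w) := by
    intro w
    obtain ⟨π, hπ⟩ := exists_perm5 w
    rw [hμ]
    show _ = mm ρ (std5 (cnt5 w))
    rw [← mm_perm ρ (std5 (cnt5 w)) π, hπ]
  have h1 : ∀ t, finrank k (eig (ρ (sgn (Fin 5) k three)) t) =
      ∑ j ∈ Finset.range 6, (Finset.univ.filter fun w : Fin 5 → ℤˣ => w 0 * w 1 * w 2 = t ∧ cnt5 w = j).card * μ j := by
    intro t
    rw [finrank_eig ρ h2, ← sum_cnt]
    exact Finset.sum_congr rfl fun w _ => by rw [hm]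
  have hmain := mm_ineq ρ h2 c hc i hi
  have e1 : mm ρ (fun _ => -1) = μ 5 := by
    rw [hm]
    rfl
  have e2 : mm ρ ![1, 1, -1, -1, -1] = μ 3 := by
    rw [hm]
    rfl
  rw [e1, e2] at hmain
  rw [h1, h1]
  have c1 : ∀ j, (Finset.univ.filter fun w : Fin 5 → ℤˣ => w 0 * w 1 * w 2 = 1 ∧ cnt5 w = j).card =
    (Finset.univ.filter fun w : Fin 5 → ℤˣ => w 0 * w 1 * w 2 = 1 ∧ cnt5 w = j).card := fun _ => rfl
  have a0 : (Finset.univ.filter fun w : Fin 5 → ℤˣ => w 0 * w 1 * w 2 = 1 ∧ cnt5 w = 0).card = 1 := by decide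
  have a1 : (Finset.univ.filter fun w : Fin 5 → ℤˣ => w 0 * w 1 * w 2 = 1 ∧ cnt5 w = 1).card = 2 := by decide
  have a2 : (Finset.univ.filter fun w : Fin 5 → ℤˣ => w 0 * w 1 * w 2 = 1 ∧ cnt5 w = 2).card = 4 := by decide
  have a3 : (Finset.univ.filter fun w : Fin 5 → ℤˣ => w 0 * w 1 * w 2 = 1 ∧ cnt5 w = 3).card = 6 := by decide
  have a4 : (Finset.univ.filter fun w : Fin 5 → ℤˣ => w 0 * w 1 * w 2 = 1 ∧ cnt5 w = 4).card = 3 := by decide
  have a5 : (Finset.univ.filter fun w : Fin 5 → ℤˣ => w 0 * w 1 * w 2 = 1 ∧ cnt5 w = 5).card = 0 := by decide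
  have b0 : (Finset.univ.filter fun w : Fin 5 → ℤˣ => w 0 * w 1 * w 2 = -1 ∧ cnt5 w = 0).card = 0 := by decide
  have b1 : (Finset.univ.filter fun w : Fin 5 → ℤˣ => w 0 * w 1 * w 2 = -1 ∧ cnt5 w = 1).card = 3 := by decide
  have b2 : (Finset.univ.filter fun w : Fin 5 → ℤˣ => w 0 * w 1 * w 2 = -1 ∧ cnt5 w = 2).card = 6 := by decide
  have b3 : (Finset.univ.filter fun w : Fin 5 → ℤˣ => w 0 * w 1 * w 2 = -1 ∧ cnt5 w = 3).card = 4 := by decide
  have b4 : (Finset.univ.filter fun w : Fin 5 → ℤˣ => w 0 * w 1 * w 2 = -1 ∧ cnt5 w = 4).card = 2 := by decide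
  have b5 : (Finset.univ.filter fun w : Fin 5 → ℤˣ => w 0 * w 1 * w 2 = -1 ∧ cnt5 w = 5).card = 1 := by decide
  simp only [Finset.sum_range_succ, Finset.sum_range_zero, a0, a1, a2, a3, a4, a5, b0, b1, b2, b3, b4, b5]
  omega

end rep

/-- the commutator -/
theorem three_comm {k : Type*} [Field k] (i : k) (hi : i * i = -1) : ∃ x y : symplecticGroup (Fin 5) k,
    x * y = sgn (Fin 5) k three * (y * x) := by
  let a : Fin 5 → k := fun j => if j.val < 3 then i else 1
  let b : Fin 5 → k := fun j => if j.val < 3 then -i else 1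
  let c : Fin 5 → k := fun j => if j.val < 3 then 0 else 1
  let d : Fin 5 → k := fun j => if j.val < 3 then 1 else 0
  have hx : fromBlocks (diagonal a) 0 0 (diagonal b) ∈ symplecticGroup (Fin 5) k := by
    rw [SymplecticGroup.fromBlocks_mem_iff]
    refine ⟨by simp, by simp, ?_⟩
    rw [diagonal_transpose, diagonal_mul_diagonal]
    have : ∀ j, a j * b j = 1 := by
      intro j
      simp only [a, b]
      split_ifs
      · linear_combination -hi
      · ring
    simp [this]
  have hy : fromBlocks (diagonal c) (diagonal d) (-diagonal d) (diagonal c) ∈ symplecticGroup (Fin 5) k := by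
    rw [SymplecticGroup.fromBlocks_mem_iff]
    simp only [diagonal_transpose, transpose_neg, diagonal_mul_diagonal, neg_mul, mul_neg, sub_neg_eq_add,
      diagonal_add]
    refine ⟨by simp [mul_comm], by simp [mul_comm], ?_⟩
    have : ∀ j, c j * c j + d j * d j = 1 := by
      intro j
      simp only [c, d]
      split_ifs <;> ring
    simp [this]
  refine ⟨⟨_, hx⟩, ⟨_, hy⟩, Subtype.ext ?_⟩
  show fromBlocks _ _ _ _ * fromBlocks _ _ _ _ = fromBlocks _ _ _ _ * (fromBlocks _ _ _ _ * fromBlocks _ _ _ _)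
  simp only [fromBlocks_multiply, diagonal_mul_diagonal, Matrix.mul_zero, Matrix.zero_mul, add_zero, zero_add,
    Matrix.mul_neg, Matrix.neg_mul, ← diagonal_neg]
  have h1 : ∀ j, a j * c j = (((three j : ℤˣ) : ℤ) : k) * (c j * a j) := by
    intro j
    fin_cases j <;> simp [a, c, three, std5]
  have h2 : ∀ j, a j * d j = (((three j : ℤˣ) : ℤ) : k) * (d j * b j) := by
    intro j
    fin_cases j <;> simp [a, b, d, three, std5]
  have h3 : ∀ j, b j * d j = (((three j : ℤˣ) : ℤ) : k) * (d j * a j) := by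
    intro j
    fin_cases j <;> simp [a, b, d, three, std5]
  have h4 : ∀ j, b j * c j = (((three j : ℤˣ) : ℤ) : k) * (c j * b j) := by
    intro j
    fin_cases j <;> simp [b, c, three, std5]
  rw [fromBlocks_inj]
  refine ⟨?_, ?_, ?_, ?_⟩
  · simp only [neg_zero, add_zero]
    exact congrArg diagonal (funext h1)
  · exact congrArg diagonal (funext h2)
  · simp only [h3]
  · exact congrArg diagonal (funext h4)

end Pool.Agent.H498.Sp
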