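import Pool.Agent.H498.Sp.Five

/-! Eigenspaces of sign matrices in representations of `Sp₁₀`. -/

set_option autoImplicit false
set_option linter.all false

namespace Pool.Agent.H498.Sp

open Matrix Module

section split
variable {k : Type*} [Field k] {V : Type*} [AddCommGroup V] [Module k V] [FiniteDimensional k V]

/-- the eigenspaces for the eigenvalues `±1` -/
def eig (A : Module.End k V) (s : ℤˣ) : Submodule k V := Module.End.eigenspace A ((s : ℤ) : k)

theorem mem_eig {A : Module.End k V} {s : ℤˣ} {v : V} : v ∈ eig A s ↔ A v = ((s : ℤ) : k) • v :=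
  Module.End.mem_eigenspace_iff

theorem mem_eig_one {A : Module.End k V} {v : V} : v ∈ eig A 1 ↔ A v = v := by
  rw [mem_eig]; simp

theorem mem_eig_neg {A : Module.End k V} {v : V} : v ∈ eig A (-1) ↔ A v = -v := by
  rw [mem_eig]; simp

theorem split (h2 : (2 : k) ≠ 0) (W : Submodule k V) (A : Module.End k V) (hA : A * A = 1)
    (hW : ∀ v ∈ W, A v ∈ W) : finrank k W = ∑ s : ℤˣ, finrank k (W ⊓ eig A s : Submodule k V) := by
  have hAv : ∀ v, A (A v) = v := fun v => LinearMap.congr_fun hA v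
  have e1 : (W ⊓ eig A 1) ⊔ (W ⊓ eig A (-1)) = W := by
    apply le_antisymm (sup_le inf_le_left inf_le_left)
    intro v hv
    have e : v = (2 : k)⁻¹ • (v + A v) + (2 : k)⁻¹ • (v - A v) := by
      rw [← smul_add, show v + A v + (v - A v) = (2 : k) • v by rw [two_smul]; abel, smul_smul,
        inv_mul_cancel₀ h2, one_smul]
    rw [e]
    refine Submodule.add_mem_sup ⟨W.smul_mem _ (W.add_mem hv (hW v hv)), ?_⟩ ⟨W.smul_mem _ (W.sub_mem hv (hW v hv)), ?_⟩
    · refine mem_eig_one.2 ?_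
      rw [map_smul, map_add, hAv, add_comm]
    · refine mem_eig_neg.2 ?_
      rw [map_smul, map_sub, hAv, ← smul_neg, neg_sub]
  have e2 : (W ⊓ eig A 1) ⊓ (W ⊓ eig A (-1)) = ⊥ := by
    rw [eq_bot_iff]
    rintro v ⟨⟨_, h1⟩, ⟨_, h3⟩⟩
    have h1' := mem_eig_one.1 h1
    have h3' := mem_eig_neg.1 h3
    rw [h1'] at h3'
    have : (2 : k) • v = 0 := by rw [two_smul]; nth_rewrite 1 [h3']; exact neg_add_cancel v
    exact (smul_eq_zero.1 this).resolve_left h2
  have e3 := Submodule.finrank_sup_add_finrank_inf_eq (W ⊓ eig A 1) (W ⊓ eig A (-1))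
  rw [e1, e2, finrank_bot, add_zero] at e3
  have e4 : (Finset.univ : Finset ℤˣ) = {1, -1} := rfl
  rw [e4, Finset.sum_pair (by decide), e3]

theorem split_family (h2 : (2 : k) ≠ 0) : ∀ (n : ℕ) (g : Fin n → Module.End k V), (∀ i, g i * g i = 1) →
    (∀ i j, g i * g j = g j * g i) → ∀ W : Submodule k V, (∀ i, ∀ v ∈ W, g i v ∈ W) →
    finrank k W = ∑ w : Fin n → ℤˣ, finrank k (W ⊓ ⨅ i, eig (g i) (w i) : Submodule k V) := by
  intro n
  induction n with
  | zero =>
    intro g _ _ W _
    rw [Fintype.sum_unique, iInf_of_empty, inf_top_eq]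
  | succ n ih =>
    intro g h1 hc W hW
    rw [split h2 W (g 0) (h1 0) (hW 0)]
    have hst : ∀ s : ℤˣ, ∀ i : Fin n, ∀ v ∈ W ⊓ eig (g 0) s, g i.succ v ∈ W ⊓ eig (g 0) s := by
      rintro s i v ⟨hv1, hv2⟩
      refine ⟨hW _ v hv1, mem_eig.2 ?_⟩
      have h3 : g 0 (g i.succ v) = g i.succ (g 0 v) := LinearMap.congr_fun (hc 0 i.succ) v
      rw [h3, mem_eig.1 hv2, map_smul]
    have h4 : ∀ s : ℤˣ, finrank k (W ⊓ eig (g 0) s : Submodule k V) =
        ∑ w : Fin n → ℤˣ, finrank k (W ⊓ ⨅ i, eig (g i) ((Fin.cons s w : Fin (n + 1) → ℤˣ) i) : Submodule k V) := by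
      intro s
      rw [ih (fun i => g i.succ) (fun i => h1 _) (fun i j => hc _ _) _ (hst s)]
      refine Finset.sum_congr rfl fun w _ => ?_
      have h5 : (W ⊓ eig (g 0) s ⊓ ⨅ i : Fin n, eig (g i.succ) (w i) : Submodule k V) =
          W ⊓ ⨅ i, eig (g i) ((Fin.cons s w : Fin (n + 1) → ℤˣ) i) := by
        ext v
        simp only [Submodule.mem_inf, Submodule.mem_iInf, Fin.forall_fin_succ, Fin.cons_zero, Fin.cons_succ]
        tauto
      rw [h5]
    rw [Finset.sum_congr rfl fun s _ => h4 s, ← Fintype.sum_prod_type'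
      (f := fun (s : ℤˣ) (w : Fin n → ℤˣ) => finrank k (W ⊓ ⨅ i, eig (g i) ((Fin.cons s w : Fin (n + 1) → ℤˣ) i) : Submodule k V))]
    exact Fintype.sum_equiv (Fin.consEquiv fun _ => ℤˣ) _ _ fun x => rfl

end split

section rep
variable {k : Type*} [Field k] {V : Type*} [AddCommGroup V] [Module k V] [FiniteDimensional k V]
  (ρ : symplecticGroup (Fin 5) k →* Module.End k V)

/-- the sign `-1` at the place `j` -/
def one1 (j : Fin 5) : Fin 5 → ℤˣ := fun i => if i = j then -1 else 1

/-- the commuting involutions -/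
def gg (j : Fin 5) : Module.End k V := ρ (sgn (Fin 5) k (one1 j))

theorem gg_sq (j : Fin 5) : gg ρ j * gg ρ j = 1 := by
  rw [gg, ← map_mul, ← map_mul]
  have : one1 j * one1 j = 1 := by
    funext i
    exact Int.units_mul_self _
  rw [this, map_one, map_one]

theorem gg_comm (i j : Fin 5) : gg ρ i * gg ρ j = gg ρ j * gg ρ i := by
  rw [gg, gg, ← map_mul, ← map_mul, ← map_mul, ← map_mul, mul_comm]

/-- the weight spaces -/
def wt (w : Fin 5 → ℤˣ) : Submodule k V := ⨅ j, eig (gg ρ j) (w j)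

theorem mem_wt {w : Fin 5 → ℤˣ} {v : V} : v ∈ wt ρ w ↔ ∀ j, gg ρ j v = ((w j : ℤ) : k) • v := by
  simp only [wt, Submodule.mem_iInf, mem_eig]

/-- the dimensions of the weight spaces -/
noncomputable def mm (w : Fin 5 → ℤˣ) : ℕ := finrank k (wt ρ w)

theorem inv_apply (x : symplecticGroup (Fin 5) k) (v : V) : ρ x (ρ x⁻¹ v) = v := by
  rw [← Module.End.mul_apply, ← map_mul, mul_inv_cancel, map_one, Module.End.one_apply]

theorem inv_apply' (x : symplecticGroup (Fin 5) k) (v : V) : ρ x⁻¹ (ρ x v) = v := by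
  rw [← Module.End.mul_apply, ← map_mul, inv_mul_cancel, map_one, Module.End.one_apply]

theorem mm_le (w : Fin 5 → ℤˣ) (π : Equiv.Perm (Fin 5)) : mm ρ (w ∘ π) ≤ mm ρ w := by
  have h : ∀ v ∈ wt ρ (w ∘ π), ρ (perm k π) v ∈ wt ρ w := by
    intro v hv
    rw [mem_wt] at hv ⊢
    intro j
    have h1 : sgn (Fin 5) k (one1 j) * perm k π = perm k π * sgn (Fin 5) k (one1 (π.symm j)) := by
      rw [sgn_perm]
      congr 2
      funext i
      simp only [one1, Function.comp]
      congr 1
      rw [eq_iff_iff]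
      constructor
      · rintro rfl; simp
      · rintro rfl; simp
    have h2 : gg ρ j (ρ (perm k π) v) = ρ (perm k π) (gg ρ (π.symm j) v) := by
      rw [gg, gg, ← Module.End.mul_apply, ← Module.End.mul_apply, ← map_mul, ← map_mul, h1]
    rw [h2, hv, map_smul]
    simp
  have hinj : Function.Injective ((ρ (perm k π)).restrict h) := by
    intro a b hab
    have h1 : ρ (perm k π) a.1 = ρ (perm k π) b.1 := congrArg Subtype.val hab
    have h2 := congrArg (ρ (perm k π)⁻¹) h1
    rw [inv_apply', inv_apply'] at h2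
    exact Subtype.ext h2
  exact LinearMap.finrank_le_finrank_of_injective hinj

theorem mm_perm (w : Fin 5 → ℤˣ) (π : Equiv.Perm (Fin 5)) : mm ρ (w ∘ π) = mm ρ w := by
  apply le_antisymm (mm_le ρ w π)
  have h := mm_le ρ (w ∘ π) π.symm
  rwa [Function.comp_assoc, Equiv.self_comp_symm, Function.comp_id] at h

/-- **The main inequality.** -/
theorem mm_ineq (h2 : (2 : k) ≠ 0) (c : k) (hc : 2 * c ^ 2 = 1) (i : k) (hi : i * i = -1) :
    mm ρ (fun _ => -1) ≤ 4 * mm ρ ![1, 1, -1, -1, -1] := by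
  obtain ⟨y, hy1, hy2, hy3⟩ := exists_four i hi
  have hf : Function.Injective (Fin.castLE (by norm_num : 2 ≤ 5)) := Fin.castLE_injective _
  have hx : sgn (Fin 2) k Sp.e2 * sgn (Fin 2) k Sp.e2 = 1 := by
    rw [← map_mul]
    have : Sp.e2 * Sp.e2 = 1 := by
      funext i
      exact Int.units_mul_self _
    rw [this, map_one]
  let em : symplecticGroup (Fin 2) k →* symplecticGroup (Fin 5) k := emb k _ hf
  let u : Fin 4 → symplecticGroup (Fin 2) k := fun j => avg _ (y j) c hc hx (hy1 j) (hy2 j)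
  have hu : ∀ j, sgn (Fin 2) k Sp.e2 * u j = u j * y j := fun j => avg_mul _ (y j) c hc hx (hy1 j) (hy2 j)
  have hg1 : em (sgn (Fin 2) k Sp.e2) = sgn (Fin 5) k (one1 1) := by
    rw [← emb_sgn (one1 1) (Fin.castLE (by norm_num : 2 ≤ 5)) hf (by
      intro j hj
      have : j ≠ 1 := by
        rintro rfl
        exact hj ⟨1, rfl⟩
      simp [one1, this])]
    show emb k _ hf _ = _
    congr 2
    funext j
    fin_cases j <;> rfl
  have hg01 : em (sgn (Fin 2) k (fun _ => -1)) = sgn (Fin 5) k (one1 0) * sgn (Fin 5) k (one1 1) := by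
    rw [← map_mul, ← emb_sgn (one1 0 * one1 1) (Fin.castLE (by norm_num : 2 ≤ 5)) hf (by
      intro j hj
      have h1 : j ≠ 1 := by
        rintro rfl
        exact hj ⟨1, rfl⟩
      have h0 : j ≠ 0 := by
        rintro rfl
        exact hj ⟨0, rfl⟩
      simp [one1, h1, h0])]
    show emb k _ hf _ = _
    congr 2
    funext j
    fin_cases j <;> rfl
  have hcomm : ∀ (j : Fin 5), 2 ≤ j.val → ∀ z : symplecticGroup (Fin 2) k,
      sgn (Fin 5) k (one1 j) * em z = em z * sgn (Fin 5) k (one1 j) := by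
    intro j hj z
    refine sgn_comm_emb _ _ hf (fun i => ?_) z
    have : (Fin.castLE (by norm_num : 2 ≤ 5)) i ≠ j := by
      intro h
      have h3 := congrArg Fin.val h
      have h4 := i.2
      simp at h3
      omega
    simp [one1, this]
  have hcen : ∀ z : symplecticGroup (Fin 2) k, (sgn (Fin 5) k (one1 0) * sgn (Fin 5) k (one1 1)) * em z =
      em z * (sgn (Fin 5) k (one1 0) * sgn (Fin 5) k (one1 1)) := by
    intro z
    rw [← hg01, ← map_mul, ← map_mul]
    congr 1
    have e : (sgn (Fin 2) k (fun _ => -1)).1 = -1 := by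
      show fromBlocks _ _ _ _ = _
      have h5 : (diagonal fun i : Fin 2 => ((((-1 : ℤˣ) : ℤ)) : k)) = -1 := by
        ext i j; fin_cases i <;> fin_cases j <;> simp
      rw [h5, ← fromBlocks_one, fromBlocks_neg]
      simp
    apply Subtype.ext
    show (sgn (Fin 2) k (fun _ => -1)).1 * z.1 = z.1 * (sgn (Fin 2) k (fun _ => -1)).1
    rw [e]
    simp
  -- the actions
  have act : ∀ (a b : symplecticGroup (Fin 5) k) (v : V), ρ a (ρ b v) = ρ (a * b) v := fun a b v => by
    rw [map_mul]; rfl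
  let Z : Fin 4 → Module.End k V := fun j => ρ (em (u j)) * (1 + ρ (em (y j)))
  have hZ : ∀ j v, Z j v = ρ (em (u j)) (v + ρ (em (y j)) v) := fun j v => rfl
  have hmaps : ∀ j, ∀ v ∈ wt ρ (fun _ => -1), Z j v ∈ wt ρ ![1, 1, -1, -1, -1] := by
    intro j v hv
    rw [mem_wt] at hv
    have hv' : ∀ j, gg ρ j v = - v := fun j => by rw [hv j]; simp
    have hy : em (y j) * em (y j) = 1 := by rw [← map_mul, hy1 j, map_one]
    have h1 : ρ (sgn (Fin 5) k (one1 1)) (Z j v) = Z j v := by
      rw [hZ, act, ← hg1, ← map_mul, hu j, map_mul, ← act]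
      congr 1
      rw [map_add, act, hy, map_one, Module.End.one_apply, add_comm]
    have hz01 : ρ (sgn (Fin 5) k (one1 0) * sgn (Fin 5) k (one1 1)) v = v := by
      rw [← act]
      show gg ρ 0 (gg ρ 1 v) = v
      rw [hv', map_neg, hv', neg_neg]
    have h01 : ρ (sgn (Fin 5) k (one1 0) * sgn (Fin 5) k (one1 1)) (Z j v) = Z j v := by
      rw [hZ, act, hcen, ← act]
      congr 1
      rw [map_add, act, hcen, ← act (em (y j)), hz01]
    rw [mem_wt]
    intro i
    have hrest : ∀ i : Fin 5, 2 ≤ i.val → gg ρ i (Z j v) = - Z j v := by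
      intro i hi
      rw [hZ, gg, act, hcomm i hi, ← act, map_add, act, hcomm i hi, ← act]
      show ρ (em (u j)) (gg ρ i v + ρ (em (y j)) (gg ρ i v)) = _
      rw [hv' i, map_neg, ← neg_add, map_neg]
    fin_cases i
    · show gg ρ 0 (Z j v) = _
      have : gg ρ 0 (Z j v) = Z j v := by
        nth_rewrite 1 [← h1]
        rw [gg, act, h01]
      rw [this]
      simp
    · show ρ (sgn (Fin 5) k (one1 1)) (Z j v) = _
      rw [h1]
      simp
    · show gg ρ 2 (Z j v) = _
      rw [hrest 2 (by decide)]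
      simp
    · show gg ρ 3 (Z j v) = _
      rw [hrest 3 (by decide)]
      simp
    · show gg ρ 4 (Z j v) = _
      rw [hrest 4 (by decide)]
      simp
  let Λ : wt ρ (fun _ => -1) →ₗ[k] (Fin 4 → wt ρ ![1, 1, -1, -1, -1]) := LinearMap.pi fun j => (Z j).restrict (hmaps j)
  have hΛ : Function.Injective Λ := by
    rw [← LinearMap.ker_eq_bot, LinearMap.ker_eq_bot']
    rintro ⟨v, hv⟩ h0
    have hv' : ∀ j, gg ρ j v = - v := fun j => by rw [(mem_wt ρ).1 hv j]; simp
    have h1 : ∀ j, Z j v = 0 := fun j => congrArg Subtype.val (congrFun h0 j)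
    have h3 : ∀ j, ρ (em (y j)) v = -v := by
      intro j
      have h4 := h1 j
      rw [hZ] at h4
      have h5 := congrArg (ρ (em (u j))⁻¹) h4
      rw [inv_apply', map_zero] at h5
      exact (neg_eq_of_add_eq_zero_right h5).symm
    have h6 := congrArg (fun z => ρ (em z) v) hy3
    simp only [hg01, map_mul, Module.End.mul_apply, h3, map_neg, neg_neg] at h6
    rw [hg1] at h6
    change gg ρ 1 v = gg ρ 0 (gg ρ 1 v) at h6
    rw [hv', map_neg, hv', neg_neg] at h6
    have : (2 : k) • v = 0 := by rw [two_smul]; nth_rewrite 1 [← h6]; exact neg_add_cancel v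
    exact Subtype.ext ((smul_eq_zero.1 this).resolve_left h2)
  have h7 := LinearMap.finrank_le_finrank_of_injective hΛ
  rw [Module.finrank_pi_fintype] at h7
  simp only [Finset.sum_const, Finset.card_univ, Fintype.card_fin, smul_eq_mul] at h7
  exact h7

end rep

end Pool.Agent.H498.Sp
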