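import Mathlib

/-! Elements of symplectic groups. -/

set_option autoImplicit false
set_option linter.all false

namespace Pool.Agent.H498.Sp

open Matrix

section general
variable {l : Type*} [Fintype l] [DecidableEq l] {L : Type*} [Fintype L] [DecidableEq L]
  {R : Type*} [CommRing R]

/-- the sign matrices -/
def sgn (l : Type*) [Fintype l] [DecidableEq l] (R : Type*) [CommRing R] : (l → ℤˣ) →* symplecticGroup l R where
  toFun ε := ⟨fromBlocks (diagonal fun i => ((ε i : ℤ) : R)) 0 0 (diagonal fun i => ((ε i : ℤ) : R)), by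
    rw [SymplecticGroup.fromBlocks_mem_iff]
    have h : ∀ i, ((ε i : ℤ) : R) * ((ε i : ℤ) : R) = 1 := fun i => by
      rw [← Int.cast_mul, ← Units.val_mul, Int.units_mul_self]; simp
    refine ⟨by simp, by simp, ?_⟩
    rw [diagonal_transpose, diagonal_mul_diagonal]
    simp [h]⟩
  map_one' := by
    apply Subtype.ext
    simp
  map_mul' a b := by
    apply Subtype.ext
    simp [fromBlocks_multiply, diagonal_mul_diagonal]

/-- the permutation matrix -/
def pmat (R : Type*) [CommRing R] (f : l → L) : Matrix L l R := (1 : Matrix L L R).submatrix id f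

theorem pmat_t_mul (f : l → L) (hf : Function.Injective f) : (pmat R f)ᵀ * pmat R f = 1 := by
  ext i j
  rw [mul_apply]
  simp only [pmat, transpose_apply, submatrix_apply, id, one_apply]
  simp [hf.eq_iff, eq_comm]

theorem diag_mul_pmat (f : l → L) (d : L → R) : diagonal d * pmat R f = pmat R f * diagonal (d ∘ f) := by
  ext i j
  rw [diagonal_mul, mul_diagonal]
  simp only [pmat, submatrix_apply, id, one_apply, Function.comp]
  split_ifs with h
  · rw [h]; ring
  · ring

/-- the inclusion matrix -/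
def inc (R : Type*) [CommRing R] (f : l → L) : Matrix (L ⊕ L) (l ⊕ l) R := fromBlocks (pmat R f) 0 0 (pmat R f)

theorem inc_t_mul (f : l → L) (hf : Function.Injective f) : (inc R f)ᵀ * inc R f = 1 := by
  rw [inc, fromBlocks_transpose, fromBlocks_multiply]
  simp [pmat_t_mul f hf]

theorem J_inc (f : l → L) : J L R * inc R f = inc R f * J l R := by
  rw [inc, J, J, fromBlocks_multiply, fromBlocks_multiply]
  simp

theorem inc_t_J (f : l → L) : (inc R f)ᵀ * J L R = J l R * (inc R f)ᵀ := by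
  have h := congrArg Matrix.transpose (J_inc (R := R) f)
  rw [transpose_mul, transpose_mul, J_transpose, J_transpose, Matrix.mul_neg, Matrix.neg_mul, neg_inj] at h
  exact h

/-- the embedding of a smaller symplectic group -/
def emb (R : Type*) [CommRing R] (f : l → L) (hf : Function.Injective f) :
    symplecticGroup l R →* symplecticGroup L R where
  toFun M := ⟨1 + inc R f * (M.1 - 1) * (inc R f)ᵀ, by
    rw [SymplecticGroup.mem_iff]
    have hM := SymplecticGroup.mem_iff.1 M.2
    have e1 : (1 + inc R f * (M.1 - 1) * (inc R f)ᵀ)ᵀ = 1 + inc R f * (M.1ᵀ - 1) * (inc R f)ᵀ := by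
      simp only [transpose_add, transpose_one, transpose_mul, transpose_transpose, transpose_sub, Matrix.mul_assoc]
    rw [e1]
    have e2 : (1 + inc R f * (M.1 - 1) * (inc R f)ᵀ) * J L R * (1 + inc R f * (M.1ᵀ - 1) * (inc R f)ᵀ) =
        J L R + inc R f * ((M.1 - 1) * J l R + J l R * (M.1ᵀ - 1) + (M.1 - 1) * J l R * (M.1ᵀ - 1)) *
          (inc R f)ᵀ := by
      have h1 : inc R f * (M.1 - 1) * (inc R f)ᵀ * J L R = inc R f * ((M.1 - 1) * J l R) * (inc R f)ᵀ := by
        rw [Matrix.mul_assoc, inc_t_J]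
        simp only [Matrix.mul_assoc]
      have h2 : J L R * (inc R f * (M.1ᵀ - 1) * (inc R f)ᵀ) = inc R f * (J l R * (M.1ᵀ - 1)) * (inc R f)ᵀ := by
        rw [← Matrix.mul_assoc, ← Matrix.mul_assoc, J_inc]
        simp only [Matrix.mul_assoc]
      have h3 : inc R f * ((M.1 - 1) * J l R) * (inc R f)ᵀ * (inc R f * (M.1ᵀ - 1) * (inc R f)ᵀ) =
          inc R f * ((M.1 - 1) * J l R * (M.1ᵀ - 1)) * (inc R f)ᵀ := by
        calc _ = inc R f * ((M.1 - 1) * J l R) * ((inc R f)ᵀ * inc R f) * (M.1ᵀ - 1) * (inc R f)ᵀ := by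
              simp only [Matrix.mul_assoc]
          _ = _ := by rw [inc_t_mul f hf, Matrix.mul_one]; simp only [Matrix.mul_assoc]
      rw [add_mul, one_mul, h1, mul_add, mul_one, add_mul, h2, h3]
      simp only [Matrix.mul_add, Matrix.add_mul]
      abel
    rw [e2]
    have e3 : (M.1 - 1) * J l R + J l R * (M.1ᵀ - 1) + (M.1 - 1) * J l R * (M.1ᵀ - 1) = 0 := by
      have : (M.1 - 1) * J l R + J l R * (M.1ᵀ - 1) + (M.1 - 1) * J l R * (M.1ᵀ - 1) =
        M.1 * J l R * M.1ᵀ - J l R := by noncomm_ring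
      rw [this, hM, sub_self]
    rw [e3]
    simp⟩
  map_one' := by
    apply Subtype.ext
    simp
  map_mul' M N := by
    apply Subtype.ext
    show 1 + inc R f * (M.1 * N.1 - 1) * (inc R f)ᵀ =
      (1 + inc R f * (M.1 - 1) * (inc R f)ᵀ) * (1 + inc R f * (N.1 - 1) * (inc R f)ᵀ)
    have h3 : inc R f * (M.1 - 1) * (inc R f)ᵀ * (inc R f * (N.1 - 1) * (inc R f)ᵀ) =
        inc R f * ((M.1 - 1) * (N.1 - 1)) * (inc R f)ᵀ := by
      calc _ = inc R f * (M.1 - 1) * ((inc R f)ᵀ * inc R f) * (N.1 - 1) * (inc R f)ᵀ := by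
            simp only [Matrix.mul_assoc]
        _ = _ := by rw [inc_t_mul f hf, Matrix.mul_one]; simp only [Matrix.mul_assoc]
    rw [mul_add, mul_one, add_mul, one_mul, h3]
    have e : M.1 * N.1 - 1 = (M.1 - 1) + (N.1 - 1) + (M.1 - 1) * (N.1 - 1) := by noncomm_ring
    rw [e]
    simp only [Matrix.mul_add, Matrix.add_mul]
    abel

theorem sgn_inc (ε : L → ℤˣ) (f : l → L) : (sgn L R ε).1 * inc R f = inc R f * (sgn l R (ε ∘ f)).1 := by
  show fromBlocks _ _ _ _ * _ = _ * fromBlocks _ _ _ _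
  rw [inc, fromBlocks_multiply, fromBlocks_multiply]
  simp only [zero_mul, mul_zero, add_zero, zero_add, Matrix.mul_zero, Matrix.zero_mul]
  rw [diag_mul_pmat]
  rfl

theorem inc_t_sgn (ε : L → ℤˣ) (f : l → L) : (inc R f)ᵀ * (sgn L R ε).1 = (sgn l R (ε ∘ f)).1 * (inc R f)ᵀ := by
  have h := congrArg Matrix.transpose (sgn_inc (R := R) ε f)
  rw [transpose_mul, transpose_mul] at h
  have e : ∀ (k : Type _) [Fintype k] [DecidableEq k] (ε : k → ℤˣ), ((sgn k R ε).1)ᵀ = (sgn k R ε).1 := by
    intro k _ _ ε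
    show (fromBlocks _ _ _ _)ᵀ = fromBlocks _ _ _ _
    rw [fromBlocks_transpose]
    simp
  have e' : ((sgn l R (ε ∘ f)).1)ᵀ = (sgn l R (ε ∘ f)).1 := by
    show (fromBlocks _ _ _ _)ᵀ = fromBlocks _ _ _ _
    rw [fromBlocks_transpose]
    simp
  rw [e, e'] at h
  exact h

/-- the sign matrices commute with the embedded group if the signs are trivial there -/
theorem sgn_comm_emb (ε : L → ℤˣ) (f : l → L) (hf : Function.Injective f) (h : ∀ i, ε (f i) = 1)
    (M : symplecticGroup l R) : sgn L R ε * emb R f hf M = emb R f hf M * sgn L R ε := by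
  apply Subtype.ext
  show (sgn L R ε).1 * (1 + inc R f * (M.1 - 1) * (inc R f)ᵀ) = (1 + inc R f * (M.1 - 1) * (inc R f)ᵀ) * (sgn L R ε).1
  have h1 : sgn l R (ε ∘ f) = 1 := by
    have : ε ∘ f = 1 := funext h
    rw [this, map_one]
  have h2 := sgn_inc (R := R) ε f
  have h3 := inc_t_sgn (R := R) ε f
  rw [h1] at h2 h3
  rw [mul_add, add_mul, mul_one, one_mul, ← Matrix.mul_assoc, ← Matrix.mul_assoc, h2,
    Matrix.mul_assoc (inc R f * (M.1 - 1)), h3]
  simp only [OneMemClass.coe_one, mul_one, one_mul, Matrix.mul_one, Matrix.one_mul]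

/-- the embedded sign matrices -/
theorem emb_sgn (ε : L → ℤˣ) (f : l → L) (hf : Function.Injective f) (h : ∀ j, j ∉ Set.range f → ε j = 1) :
    emb R f hf (sgn l R (ε ∘ f)) = sgn L R ε := by
  apply Subtype.ext
  show 1 + inc R f * ((sgn l R (ε ∘ f)).1 - 1) * (inc R f)ᵀ = (sgn L R ε).1
  have e1 : inc R f * ((sgn l R (ε ∘ f)).1 - 1) * (inc R f)ᵀ = ((sgn L R ε).1 - 1) * (inc R f * (inc R f)ᵀ) := by
    rw [Matrix.mul_sub, Matrix.sub_mul, Matrix.sub_mul, ← sgn_inc]
    simp only [Matrix.mul_assoc, Matrix.mul_one, Matrix.one_mul]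
  have e2 : ∀ d : L → R, (∀ j, j ∉ Set.range f → d j = 0) → diagonal d * (pmat R f * (pmat R f)ᵀ) = diagonal d := by
    intro d hd
    ext i j
    rw [diagonal_mul]
    by_cases hi : i ∈ Set.range f
    · obtain ⟨k, rfl⟩ := hi
      have : (pmat R f * (pmat R f)ᵀ) (f k) j = (1 : Matrix L L R) (f k) j := by
        rw [mul_apply]
        simp only [pmat, transpose_apply, submatrix_apply, id, one_apply]
        simp only [hf.eq_iff]
        rw [Finset.sum_eq_single k]
        · simp [eq_comm]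
        · intro b _ hb
          rw [if_neg (Ne.symm hb), zero_mul]
        · simp
      rw [this, one_apply, diagonal_apply]
      split_ifs <;> simp
    · rw [hd i hi, zero_mul, diagonal_apply, hd i hi, ite_self]
  have e3 : (sgn L R ε).1 - 1 = fromBlocks (diagonal fun i => ((ε i : ℤ) : R) - 1) 0 0
      (diagonal fun i => ((ε i : ℤ) : R) - 1) := by
    show fromBlocks _ _ _ _ - _ = _
    rw [← fromBlocks_one, sub_eq_add_neg, fromBlocks_neg, fromBlocks_add]
    simp only [← diagonal_one, neg_zero, add_zero, ← sub_eq_add_neg, diagonal_sub]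
  have e4 : ((sgn L R ε).1 - 1) * (inc R f * (inc R f)ᵀ) = (sgn L R ε).1 - 1 := by
    rw [e3, inc, fromBlocks_transpose, fromBlocks_multiply, fromBlocks_multiply]
    simp only [zero_mul, mul_zero, add_zero, zero_add, Matrix.mul_zero, Matrix.zero_mul, transpose_zero]
    rw [e2]
    intro j hj
    rw [h j hj]
    simp
  rw [e1, e4]
  abel

/-- the permutation matrices -/
def perm (R : Type*) [CommRing R] (π : Equiv.Perm l) : symplecticGroup l R :=
  ⟨fromBlocks (pmat R π) 0 0 (pmat R π), by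
    rw [SymplecticGroup.fromBlocks_mem_iff]
    refine ⟨by simp, by simp, ?_⟩
    rw [pmat_t_mul _ π.injective]
    simp⟩

theorem sgn_perm (π : Equiv.Perm l) (ε : l → ℤˣ) : sgn l R ε * perm R π = perm R π * sgn l R (ε ∘ π) := by
  apply Subtype.ext
  exact sgn_inc ε π

/-- the average of two anticommuting involutions -/
def avg (x y : symplecticGroup l R) (c : R) (hc : 2 * c ^ 2 = 1) (hx : x * x = 1) (hy : y * y = 1)
    (hxy : x.1 * y.1 = - (y.1 * x.1)) : symplecticGroup l R :=
  ⟨c • (x.1 + y.1), by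
    rw [SymplecticGroup.mem_iff]
    have h1 := SymplecticGroup.mem_iff.1 x.2
    have h2 := SymplecticGroup.mem_iff.1 y.2
    have hx' : x.1 * x.1 = 1 := congrArg Subtype.val hx
    have hy' : y.1 * y.1 = 1 := congrArg Subtype.val hy
    have h3 : J l R * x.1ᵀ = x.1 * J l R := by
      calc J l R * x.1ᵀ = (x.1 * x.1) * J l R * x.1ᵀ := by rw [hx', one_mul]
        _ = x.1 * (x.1 * J l R * x.1ᵀ) := by simp only [Matrix.mul_assoc]
        _ = _ := by rw [h1]
    have h4 : J l R * y.1ᵀ = y.1 * J l R := by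
      calc J l R * y.1ᵀ = (y.1 * y.1) * J l R * y.1ᵀ := by rw [hy', one_mul]
        _ = y.1 * (y.1 * J l R * y.1ᵀ) := by simp only [Matrix.mul_assoc]
        _ = _ := by rw [h2]
    rw [transpose_smul, transpose_add]
    have e : (c • (x.1 + y.1)) * J l R * (c • (x.1ᵀ + y.1ᵀ)) =
        (c * c) • ((x.1 + y.1) * (J l R * x.1ᵀ + J l R * y.1ᵀ)) := by
      simp only [smul_mul_assoc, mul_smul_comm, smul_smul, Matrix.mul_assoc, Matrix.mul_add]
    rw [e, h3, h4, ← add_mul, ← Matrix.mul_assoc]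
    have e2 : (x.1 + y.1) * (x.1 + y.1) = (2 : R) • (1 : Matrix (l ⊕ l) (l ⊕ l) R) := by
      rw [mul_add, add_mul, add_mul, hx', hy', hxy, two_smul]
      abel
    rw [e2, smul_mul_assoc, smul_smul, one_mul]
    have : c * c * 2 = 1 := by rw [← hc]; ring
    rw [this, one_smul]⟩

theorem avg_mul (x y : symplecticGroup l R) (c : R) (hc : 2 * c ^ 2 = 1) (hx : x * x = 1) (hy : y * y = 1)
    (hxy : x.1 * y.1 = - (y.1 * x.1)) : x * avg x y c hc hx hy hxy = avg x y c hc hx hy hxy * y := by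
  apply Subtype.ext
  show x.1 * (c • (x.1 + y.1)) = (c • (x.1 + y.1)) * y.1
  have hx' : x.1 * x.1 = 1 := congrArg Subtype.val hx
  have hy' : y.1 * y.1 = 1 := congrArg Subtype.val hy
  rw [mul_smul_comm, smul_mul_assoc, mul_add, add_mul, hx', hy', add_comm]

end general

end Pool.Agent.H498.Sp
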