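import Pool.Agent.H498.Sp.Main

/-! The final form. -/

set_option autoImplicit false
set_option linter.all false

namespace Pool.Agent.H498.Sp

open NumberField IsDedekindDomain Matrix
open Pool.Agent.W401.Cheb (GK IsFrob IsInert)

/-- the element of `Sp_{2n}(Ω)` which comes from an element of `Sp_{2n}(ℤ)` -/
def toField {n : ℕ} (Ω : Type) [Field Ω] (x : symplecticGroup (Fin n) ℤ) : symplecticGroup (Fin n) Ω :=
  ⟨x.1.map (Int.castRingHom Ω), SymplecticGroup.map_mem x.2 (Int.castRingHom Ω)⟩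

open Classical in
theorem final (K : Type) [Field K] [NumberField K] (n : ℕ) (hn : 5 ≤ n) :
    ∃ (S : Set (HeightOneSpectrum (𝓞 K))) (s : HeightOneSpectrum (𝓞 K) → symplecticGroup (Fin n) ℤ),
      S.Finite ∧ (∀ v, s v * s v = 1) ∧
      (∀ (Ω : Type) [Field Ω] [CharZero Ω] [IsAlgClosed Ω] (N : ℕ) (φ : symplecticGroup (Fin n) Ω →* GL (Fin N) Ω),
        ∃ r : GK K →* GL (Fin N) Ω, IsOpen (r.ker : Set (GK K)) ∧ ∀ v ∉ S, (∀ τ, IsInert v τ → r τ = 1) ∧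
          ∀ σ, IsFrob v σ → IsConj (r σ) (φ (toField Ω (s v)))) ∧
      (∀ (Ω : Type) [Field Ω] [CharZero Ω] [TopologicalSpace Ω] [IsTopologicalRing Ω] [T2Space Ω],
        ¬ ∃ r : GK K →* symplecticGroup (Fin n) Ω, Continuous r ∧ ∃ T : Set (HeightOneSpectrum (𝓞 K)), T.Finite ∧
          ∀ v ∉ T, ∀ σ, IsFrob v σ → IsConj (r σ).1 (toField Ω (s v)).1) := by
  obtain ⟨χ₁, χ₂, H⟩ := Pool.Agent.H498.BG.exists_indep K
  set S : Set (HeightOneSpectrum (𝓞 K)) := {v | ∃ τ, IsInert v τ ∧ (χ₁ τ ≠ 1 ∨ χ₂ τ ≠ 1)} with hS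
  let s : HeightOneSpectrum (𝓞 K) → symplecticGroup (Fin n) ℤ := fun v =>
    if ∃ σ, IsFrob v σ ∧ ¬ (χ₁ σ = 1 ∧ χ₂ σ = 1) then
      Pool.Agent.H498.Sp.sgn (Fin n) ℤ (Pool.Agent.H498.Sp.thr n) else 1
  have hbase : ∀ (Ω : Type) [Field Ω], toField Ω (Pool.Agent.H498.Sp.sgn (Fin n) ℤ (Pool.Agent.H498.Sp.thr n)) =
      Pool.Agent.H498.Sp.sgn (Fin n) Ω (Pool.Agent.H498.Sp.thr n) := by
    intro Ω _
    apply Subtype.ext
    show (fromBlocks _ _ _ _).map _ = fromBlocks _ _ _ _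
    rw [fromBlocks_map]
    simp only [diagonal_map (map_zero (Int.castRingHom Ω)), Matrix.map_zero _ (map_zero (Int.castRingHom Ω))]
    simp
  have hone : ∀ (Ω : Type) [Field Ω], toField Ω (1 : symplecticGroup (Fin n) ℤ) = 1 := by
    intro Ω _
    apply Subtype.ext
    exact Matrix.map_one _ (map_zero _) (map_one _)
  have hs1 : ∀ v ∉ S, ∀ σ, IsFrob v σ → ¬ (χ₁ σ = 1 ∧ χ₂ σ = 1) →
      s v = Pool.Agent.H498.Sp.sgn (Fin n) ℤ (Pool.Agent.H498.Sp.thr n) := fun v _ σ hσ h => if_pos ⟨σ, hσ, h⟩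
  have hs2 : ∀ v ∉ S, ∀ σ, IsFrob v σ → χ₁ σ = 1 → χ₂ σ = 1 → s v = 1 := by
    intro v hv σ hσ h1 h2
    refine if_neg ?_
    rintro ⟨τ, hτ, h3⟩
    obtain ⟨h4, h5⟩ := Pool.Agent.H498.Sp.frob_uniq v hv σ τ hσ hτ
    exact h3 ⟨h4.trans h1, h5.trans h2⟩
  have hthr : Pool.Agent.H498.Sp.thr n * Pool.Agent.H498.Sp.thr n = 1 := by
    funext i
    exact Int.units_mul_self _
  refine ⟨S, s, H.fin, ?_, ?_, ?_⟩
  · intro v
    show (if _ then _ else _) * (if _ then _ else _) = _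
    split_ifs
    · rw [← map_mul, hthr, map_one]
    · exact one_mul 1
  · intro Ω _ _ _ N φ
    obtain ⟨r, hr1, hr2⟩ := Pool.Agent.H498.Sp.all_reps hn φ χ₁ χ₂
    refine ⟨r, ?_, fun v hv => ⟨fun τ hτ => ?_, fun σ hσ => ?_⟩⟩
    · refine Subgroup.isOpen_mono (H₁ := χ₁.ker ⊓ χ₂.ker) ?_ ?_
      · rintro x ⟨h1, h2⟩
        exact hr1 x h1 h2
      · rw [Subgroup.coe_inf]
        exact H.opn₁.inter H.opn₂
    · have h12 : χ₁ τ = 1 ∧ χ₂ τ = 1 := by
        by_contra hcon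
        apply hv
        refine ⟨τ, hτ, ?_⟩
        by_contra h2
        push Not at h2
        exact hcon h2
      exact hr1 τ h12.1 h12.2
    · by_cases h : χ₁ σ = 1 ∧ χ₂ σ = 1
      · rw [hs2 v hv σ hσ h.1 h.2, hone, map_one, hr1 σ h.1 h.2]
      · rw [hs1 v hv σ hσ h, hbase]
        exact hr2 σ h
  · rintro Ω _ _ _ _ _ ⟨r, hr, T, hT, h⟩
    refine Pool.Agent.H498.Sp.no_param H (by omega) r hr (T ∪ S) (hT.union H.fin) fun v hv σ hσ => ?_
    have hv1 : v ∉ T := fun h' => hv (Or.inl h')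
    have hv2 : v ∉ S := fun h' => hv (Or.inr h')
    obtain ⟨P, hP⟩ := h v hv1 σ hσ
    have hPe : (r σ).1 = P⁻¹.val * (toField Ω (s v)).1 * P.val := by
      rw [Matrix.mul_assoc, ← hP.eq, ← Matrix.mul_assoc, ← Units.val_mul, inv_mul_cancel, Units.val_one,
        Matrix.one_mul]
    have hsq : (toField Ω (s v)).1 * (toField Ω (s v)).1 = 1 := by
      by_cases h : χ₁ σ = 1 ∧ χ₂ σ = 1
      · rw [hs2 v hv2 σ hσ h.1 h.2, hone]
        exact one_mul 1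
      · rw [hs1 v hv2 σ hσ h, hbase]
        have : Pool.Agent.H498.Sp.sgn (Fin n) Ω (Pool.Agent.H498.Sp.thr n) *
          Pool.Agent.H498.Sp.sgn (Fin n) Ω (Pool.Agent.H498.Sp.thr n) = 1 := by
          rw [← map_mul, hthr, map_one]
        exact congrArg Subtype.val this
    have hPP : P.val * P⁻¹.val = 1 := by rw [← Units.val_mul, mul_inv_cancel, Units.val_one]
    have hPP' : P⁻¹.val * P.val = 1 := by rw [← Units.val_mul, inv_mul_cancel, Units.val_one]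
    refine ⟨?_, fun hne => ?_⟩
    · calc (r σ).1 * (r σ).1 = P⁻¹.val * (toField Ω (s v)).1 * (P.val * P⁻¹.val) * (toField Ω (s v)).1 * P.val := by
            rw [hPe]; simp only [Matrix.mul_assoc]
        _ = P⁻¹.val * ((toField Ω (s v)).1 * (toField Ω (s v)).1) * P.val := by
            rw [hPP, Matrix.mul_one]; simp only [Matrix.mul_assoc]
        _ = 1 := by rw [hsq, Matrix.mul_one, hPP']
    · rw [hPe, Matrix.trace_mul_comm, ← Matrix.mul_assoc, hPP, Matrix.one_mul, hs1 v hv2 σ hσ hne, hbase]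
      exact Pool.Agent.H498.Sp.trace_thr (by omega)

end Pool.Agent.H498.Sp
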