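import Pool.Agent.H498.Sp.Elem

/-! Five anticommuting involutions in `Sp₄`. -/

set_option autoImplicit false
set_option linter.all false

namespace Pool.Agent.H498.Sp

open Matrix

section five
variable {R : Type*} [CommRing R]

/-- tensor products of orthogonal and symplectic matrices -/
def tens {l : Type*} [Fintype l] [DecidableEq l] (M : Matrix l l R) (a b c d : R) (hM : Mᵀ * M = 1)
    (h : a * d - b * c = 1) : symplecticGroup l R :=
  ⟨fromBlocks (a • M) (b • M) (c • M) (d • M), by
    rw [SymplecticGroup.fromBlocks_mem_iff]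
    simp only [transpose_smul, smul_mul_assoc, mul_smul_comm, hM, smul_smul]
    refine ⟨by rw [mul_comm], by rw [mul_comm], ?_⟩
    rw [← sub_smul]
    have : d * a - b * c = 1 := by linear_combination h
    first
      | rw [this, one_smul]
      | rw [h, one_smul]⟩

variable (i : R) (hi : i * i = -1)

def sx : Matrix (Fin 2) (Fin 2) R := !![0, 1; 1, 0]
def se : Matrix (Fin 2) (Fin 2) R := !![0, 1; -1, 0]
def sz : Matrix (Fin 2) (Fin 2) R := !![1, 0; 0, -1]

theorem sx_t : (sx (R := R))ᵀ * sx = 1 := by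
  ext i j; fin_cases i <;> fin_cases j <;> simp [sx, Matrix.mul_apply, Fin.sum_univ_two]
theorem se_t : (se (R := R))ᵀ * se = 1 := by
  ext i j; fin_cases i <;> fin_cases j <;> simp [se, Matrix.mul_apply, Fin.sum_univ_two]
theorem se_se : (se (R := R)) * se = -1 := by
  ext i j; fin_cases i <;> fin_cases j <;> simp [se, Matrix.mul_apply, Fin.sum_univ_two]
theorem sx_sx : (sx (R := R)) * sx = 1 := by
  ext i j; fin_cases i <;> fin_cases j <;> simp [sx, Matrix.mul_apply, Fin.sum_univ_two]
theorem sz_sx : (sz (R := R)) * sx = se := by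
  ext i j; fin_cases i <;> fin_cases j <;> simp [sz, sx, se, Matrix.mul_apply, Fin.sum_univ_two]
theorem sx_sz : (sx (R := R)) * sz = -se := by
  ext i j; fin_cases i <;> fin_cases j <;> simp [sz, sx, se, Matrix.mul_apply, Fin.sum_univ_two]
theorem sz_se : (sz (R := R)) * se = sx := by
  ext i j; fin_cases i <;> fin_cases j <;> simp [sz, sx, se, Matrix.mul_apply, Fin.sum_univ_two]
theorem se_sz : (se (R := R)) * sz = -sx := by
  ext i j; fin_cases i <;> fin_cases j <;> simp [sz, sx, se, Matrix.mul_apply, Fin.sum_univ_two]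
theorem sz_sz : (sz (R := R)) * sz = 1 := by
  ext i j; fin_cases i <;> fin_cases j <;> simp [sz, Matrix.mul_apply, Fin.sum_univ_two]

/-- the sign `(1, -1)` -/
def e2 : Fin 2 → ℤˣ := ![1, -1]

theorem sgn_e2 : (sgn (Fin 2) R e2).1 = fromBlocks sz 0 0 sz := by
  show fromBlocks _ _ _ _ = _
  have : (diagonal fun i => ((e2 i : ℤ) : R)) = sz := by
    ext i j; fin_cases i <;> fin_cases j <;> simp [sz, e2]
  rw [this]

include hi in
/-- the other four involutions -/
theorem exists_four : ∃ y : Fin 4 → symplecticGroup (Fin 2) R, (∀ k, y k * y k = 1) ∧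
    (∀ k, (sgn (Fin 2) R e2).1 * (y k).1 = -((y k).1 * (sgn (Fin 2) R e2).1)) ∧
    sgn (Fin 2) R e2 * (y 0 * (y 1 * (y 2 * y 3))) = sgn (Fin 2) R (fun _ => -1) := by
  refine ⟨![tens sx 1 0 0 1 sx_t (by ring), tens se i 0 0 (-i) se_t (by linear_combination -hi),
    tens se 0 1 (-1) 0 se_t (by ring), tens se 0 i i 0 se_t (by linear_combination -hi)], ?_, ?_, ?_⟩
  · intro k
    apply Subtype.ext
    fin_cases k
    · show fromBlocks _ _ _ _ * fromBlocks _ _ _ _ = 1
      simp [fromBlocks_multiply, sx_sx, ← fromBlocks_one]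
    · show fromBlocks _ _ _ _ * fromBlocks _ _ _ _ = 1
      simp [fromBlocks_multiply, se_se, ← fromBlocks_one, smul_smul, hi]
    · show fromBlocks _ _ _ _ * fromBlocks _ _ _ _ = 1
      simp [fromBlocks_multiply, se_se, ← fromBlocks_one]
    · show fromBlocks _ _ _ _ * fromBlocks _ _ _ _ = 1
      simp [fromBlocks_multiply, se_se, ← fromBlocks_one, smul_smul, hi]
  · intro k
    rw [sgn_e2]
    fin_cases k
    · show _ * fromBlocks _ _ _ _ = - (fromBlocks _ _ _ _ * _)
      simp [fromBlocks_multiply, sz_sx, sx_sz, fromBlocks_neg]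
    · show _ * fromBlocks _ _ _ _ = - (fromBlocks _ _ _ _ * _)
      simp [fromBlocks_multiply, sz_se, se_sz, fromBlocks_neg]
    · show _ * fromBlocks _ _ _ _ = - (fromBlocks _ _ _ _ * _)
      simp [fromBlocks_multiply, sz_se, se_sz, fromBlocks_neg]
    · show _ * fromBlocks _ _ _ _ = - (fromBlocks _ _ _ _ * _)
      simp [fromBlocks_multiply, sz_se, se_sz, fromBlocks_neg]
  · apply Subtype.ext
    show (sgn (Fin 2) R e2).1 * (fromBlocks _ _ _ _ * (fromBlocks _ _ _ _ * (fromBlocks _ _ _ _ * fromBlocks _ _ _ _))) =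
      fromBlocks _ _ _ _
    rw [sgn_e2]
    have h3 : (se (R := R)) * (se * se) = -se := by rw [se_se]; simp
    have h4 : (sx (R := R)) * se = -sz := by
      ext i j; fin_cases i <;> fin_cases j <;> simp [sz, sx, se, Matrix.mul_apply, Fin.sum_univ_two]
    have h5 : (diagonal fun i : Fin 2 => ((((-1 : ℤˣ) : ℤ)) : R)) = -1 := by
      ext i j; fin_cases i <;> fin_cases j <;> simp
    rw [h5]
    simp [fromBlocks_multiply, se_se, h3, h4, sz_sz, smul_smul, hi]

end five

end Pool.Agent.H498.Sp
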