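import Pool.Agent.H498.Sp.Conj

/-! The symplectic group has no Klein four-group of involutions whose `-1`-eigenspaces have dimension six. -/

set_option autoImplicit false
set_option linter.all false

namespace Pool.Agent.H498.Sp

open Matrix Module

section klein
variable {k : Type*} [Field k] [CharZero k] {l : Type*} [Fintype l] [DecidableEq l]

theorem no_idem (e : Matrix (l ⊕ l) (l ⊕ l) k) (he : e * e = e) (hJ : e * J l k = J l k * eᵀ)
    (ht : e.trace = 3) : False := by
  classical
  set P : Module.End k (l ⊕ l → k) := toLin' e with hP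
  have hPP : P * P = P := by
    rw [hP, Module.End.mul_eq_comp, ← toLin'_mul, he]
  have hPv : ∀ v, P (P v) = P v := fun v => LinearMap.congr_fun hPP v
  have hproj : LinearMap.IsProj (LinearMap.range P) P := by
    constructor
    · exact fun v => ⟨v, rfl⟩
    · rintro _ ⟨v, rfl⟩
      exact hPv v
  have h3 : finrank k (LinearMap.range P) = 3 := by
    have h := hproj.trace
    rw [hP, trace_toLin'_eq, ht] at h
    exact_mod_cast h.symm
  let b : Basis (Fin 3) k (LinearMap.range P) := finBasisOfFinrankEq k _ h3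
  let Q : (Fin 3 → k) →ₗ[k] (l ⊕ l → k) := (LinearMap.range P).subtype ∘ₗ b.equivFun.symm.toLinearMap
  let S : (l ⊕ l → k) →ₗ[k] (Fin 3 → k) := b.equivFun.toLinearMap ∘ₗ P.rangeRestrict
  have h1 : Q ∘ₗ S = P := by
    ext v
    simp [Q, S]
  have h2 : S ∘ₗ Q = LinearMap.id := by
    refine LinearMap.ext fun v => ?_
    show b.equivFun (P.rangeRestrict ((b.equivFun.symm v : LinearMap.range P) : l ⊕ l → k)) = v
    have : P.rangeRestrict ((b.equivFun.symm v : LinearMap.range P) : l ⊕ l → k) = b.equivFun.symm v :=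
      Subtype.ext (hproj.map_id _ (b.equivFun.symm v).2)
    rw [this, LinearEquiv.apply_symm_apply]
  set Q' := LinearMap.toMatrix' Q
  set S' := LinearMap.toMatrix' S
  have h1' : Q' * S' = e := by
    rw [← LinearMap.toMatrix'_comp, h1, hP, LinearMap.toMatrix'_toLin']
  have h2' : S' * Q' = 1 := by
    rw [← LinearMap.toMatrix'_comp, h2, LinearMap.toMatrix'_id]
  set M := S' * J l k * S'ᵀ with hM
  have hMt : Mᵀ = -M := by
    rw [hM, transpose_mul, transpose_mul, transpose_transpose, J_transpose, Matrix.neg_mul, Matrix.mul_neg,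
      Matrix.mul_assoc]
  have hdet : M.det = 0 := by
    have h4 := det_transpose M
    rw [hMt, det_neg] at h4
    simp at h4
    have : (2 : k) * M.det = 0 := by linear_combination -h4
    exact (mul_eq_zero.1 this).resolve_left two_ne_zero
  have hinv : M * (Q'ᵀ * (-J l k) * Q') = 1 := by
    calc M * (Q'ᵀ * (-J l k) * Q') = S' * (J l k * (Q' * S')ᵀ) * (-J l k) * Q' := by
          rw [hM, transpose_mul]
          simp only [Matrix.mul_assoc]
      _ = S' * (Q' * S') * (J l k * (-J l k)) * Q' := by
          rw [h1', ← hJ]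
          simp only [Matrix.mul_assoc]
      _ = (S' * Q') * (S' * Q') := by
          rw [Matrix.mul_neg, J_squared, neg_neg, Matrix.mul_one]
          simp only [Matrix.mul_assoc]
      _ = 1 := by rw [h2', Matrix.mul_one]
  have h5 := congrArg Matrix.det hinv
  rw [det_mul, hdet, zero_mul, det_one] at h5
  exact zero_ne_one h5

theorem no_klein (A B : symplecticGroup l k) (hA : A * A = 1) (hB : B * B = 1) (hAB : (A * B) * (A * B) = 1)
    (h : ∀ X ∈ ({A, B, A * B} : Set (symplecticGroup l k)), X.1.trace = 2 * (Fintype.card l : k) - 12) : False := by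
  have hc : A * B = B * A := by
    have h1 : A * B = (A * B)⁻¹ := eq_inv_of_mul_eq_one_left hAB
    rw [_root_.mul_inv_rev, inv_eq_of_mul_eq_one_left hA, inv_eq_of_mul_eq_one_left hB] at h1
    exact h1
  have hA' : A.1 * A.1 = 1 := congrArg Subtype.val hA
  have hB' : B.1 * B.1 = 1 := congrArg Subtype.val hB
  have hc' : A.1 * B.1 = B.1 * A.1 := congrArg Subtype.val hc
  have hJA : ∀ X : symplecticGroup l k, X.1 * X.1 = 1 → X.1 * J l k = J l k * X.1ᵀ := by
    intro X hX
    have h1 := SymplecticGroup.mem_iff.1 X.2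
    calc X.1 * J l k = X.1 * (X.1 * J l k * X.1ᵀ) := by rw [h1]
      _ = (X.1 * X.1) * J l k * X.1ᵀ := by simp only [Matrix.mul_assoc]
      _ = _ := by rw [hX, one_mul]
  set e : Matrix (l ⊕ l) (l ⊕ l) k := (4 : k)⁻¹ • ((1 - A.1) * (1 + B.1)) with he
  have h4 : (4 : k) ≠ 0 := by norm_num
  have e1 : ((1 - A.1) * (1 + B.1)) * ((1 - A.1) * (1 + B.1)) = (4 : k) • ((1 - A.1) * (1 + B.1)) := by
    have h5 : (1 + B.1) * (1 - A.1) = (1 - A.1) * (1 + B.1) := by
      simp only [mul_sub, mul_add, sub_mul, add_mul, mul_one, one_mul, hc']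
      abel
    have h6 : (1 - A.1) * (1 - A.1) = (2 : k) • (1 - A.1) := by
      simp only [mul_sub, sub_mul, hA', two_smul, mul_one, one_mul]
      abel
    have h7 : (1 + B.1) * (1 + B.1) = (2 : k) • (1 + B.1) := by
      simp only [mul_add, add_mul, hB', two_smul, mul_one, one_mul]
      abel
    calc _ = (1 - A.1) * ((1 + B.1) * (1 - A.1)) * (1 + B.1) := by simp only [Matrix.mul_assoc]
      _ = ((1 - A.1) * (1 - A.1)) * ((1 + B.1) * (1 + B.1)) := by rw [h5]; simp only [Matrix.mul_assoc]
      _ = _ := by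
        rw [h6, h7, smul_mul_smul_comm]
        norm_num
  refine no_idem e ?_ ?_ ?_
  · rw [he, smul_mul_smul_comm, e1, smul_smul]
    congr 1
    field_simp
  · rw [he, transpose_smul, transpose_mul, transpose_add, transpose_sub, transpose_one, smul_mul_assoc,
      mul_smul_comm]
    congr 1
    have h8 := hJA A hA'
    have h9 := hJA B hB'
    have h10 : J l k * (A.1ᵀ * B.1ᵀ) = A.1 * B.1 * J l k := by
      rw [← Matrix.mul_assoc, ← h8, Matrix.mul_assoc, ← h9, Matrix.mul_assoc]
    have h11 : J l k * (B.1ᵀ * A.1ᵀ) = A.1 * B.1 * J l k := by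
      rw [← Matrix.mul_assoc, ← h9, Matrix.mul_assoc, ← h8, ← Matrix.mul_assoc, hc']
    simp only [mul_sub, mul_add, sub_mul, add_mul, mul_one, one_mul, Matrix.mul_one, Matrix.one_mul]
    rw [h11, ← h8, ← h9]
    abel
  · have t1 := h A (by simp)
    have t2 := h B (by simp)
    have t3 : (A.1 * B.1).trace = 2 * (Fintype.card l : k) - 12 := h (A * B) (by simp)
    rw [he, trace_smul]
    simp only [mul_sub, mul_add, sub_mul, add_mul, mul_one, one_mul, trace_sub, trace_add, trace_one, t1, t2, t3,
      smul_eq_mul, Fintype.card_sum]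
    push_cast
    field_simp
    ring

end klein

end Pool.Agent.H498.Sp
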