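import Pool.Agent.H498.Sp.Klein
import Pool.Agent.H498.BG.Sharp

/-! The system of conjugacy classes. -/

set_option autoImplicit false
set_option linter.all false

namespace Pool.Agent.H498.Sp

open Matrix Module NumberField IsDedekindDomain
open Pool.Agent.W401.Cheb

/-- the signs which are `-1` in the first three places -/
def thr (n : ℕ) : Fin n → ℤˣ := fun i => if i.val < 3 then -1 else 1

section alg
variable {k : Type*} [Field k] [CharZero k]

theorem even_of_det {N : ℕ} (A : GL (Fin N) k) (hA : A * A = 1) (p q : ℕ) (hN : p + q = N)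
    (htr : (A : Matrix (Fin N) (Fin N) k).trace = (p : k) - q) (hdet : (A : Matrix (Fin N) (Fin N) k).det = 1) :
    Even q := by
  have hcard : Fintype.card (Fin q ⊕ Fin p) = Fintype.card (Fin N) := by
    simp only [Fintype.card_sum, Fintype.card_fin]
    omega
  let e : (Fin q ⊕ Fin p) ≃ Fin N := Fintype.equivOfCardEq hcard
  let c : Fin N → ℤˣ := fun j => Sum.elim (fun _ => -1) (fun _ => 1) (e.symm j)
  have hc : ∀ i, c (e i) = Sum.elim (fun _ => -1) (fun _ => 1) i := fun i => by simp [c]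
  have h1 : ∑ j, ((c j : ℤ) : k) = (p : k) - q := by
    rw [← Equiv.sum_comp e]
    simp only [hc, Fintype.sum_sum_type, Sum.elim_inl, Sum.elim_inr, Finset.sum_const, Finset.card_univ,
      Fintype.card_fin, nsmul_eq_mul]
    push_cast
    ring
  have h2 : IsConj (dg N k c) A := isConj_inv _ _ (dg_sq _) hA (by
    rw [htr]
    show (diagonal fun j => ((c j : ℤ) : k)).trace = _
    rw [trace_diagonal, h1])
  obtain ⟨P, hP⟩ := isConj_iff.1 h2
  have h3 : (diagonal fun j => ((c j : ℤ) : k)).det = 1 := by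
    have h4 := congrArg (fun X : GL (Fin N) k => Matrix.GeneralLinearGroup.det X) hP
    simp only [map_mul, map_inv] at h4
    rw [mul_comm, inv_mul_cancel_left] at h4
    have h5 := congrArg Units.val h4
    change (diagonal fun j => ((c j : ℤ) : k)).det = (A : Matrix (Fin N) (Fin N) k).det at h5
    rw [h5, hdet]
  rw [det_diagonal, ← Equiv.prod_comp e] at h3
  simp only [hc, Fintype.prod_sum_type, Sum.elim_inl, Sum.elim_inr, Finset.prod_const, Finset.card_univ,
    Fintype.card_fin] at h3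
  push_cast at h3
  simp only [one_pow, mul_one] at h3
  rwa [neg_one_pow_eq_one_iff_even (by norm_num)] at h3

/-- all representations -/
theorem all_reps [IsAlgClosed k] {n : ℕ} (hn : 5 ≤ n) {N : ℕ} (φ : symplecticGroup (Fin n) k →* GL (Fin N) k)
    {Γ : Type*} [Group Γ] (χ₁ χ₂ : Γ →* ℤˣ) :
    ∃ r : Γ →* GL (Fin N) k, (∀ σ, χ₁ σ = 1 → χ₂ σ = 1 → r σ = 1) ∧
      ∀ σ, ¬ (χ₁ σ = 1 ∧ χ₂ σ = 1) → IsConj (r σ) (φ (sgn (Fin n) k (thr n))) := by
  obtain ⟨i, hi⟩ := IsAlgClosed.exists_eq_mul_self (-1 : k)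
  obtain ⟨c, hc⟩ := IsAlgClosed.exists_eq_mul_self ((2 : k)⁻¹)
  have h2 : (2 : k) ≠ 0 := two_ne_zero
  have hc' : 2 * c ^ 2 = 1 := by rw [sq, ← hc, mul_inv_cancel₀ h2]
  have hf : Function.Injective (Fin.castLE hn) := Fin.castLE_injective _
  let ρ : symplecticGroup (Fin 5) k →* Module.End k (Fin N → k) :=
    { toFun := fun x => toLin' (φ (emb k _ hf x) : Matrix (Fin N) (Fin N) k)
      map_one' := by rw [map_one, map_one]; exact toLin'_one
      map_mul' := fun x y => by rw [map_mul, map_mul, Units.val_mul, toLin'_mul]; rfl }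
  have hthr : emb k (Fin.castLE hn) hf (sgn (Fin 5) k three) = sgn (Fin n) k (thr n) := by
    rw [← emb_sgn (thr n) (Fin.castLE hn) hf (by
      intro j hj
      have : ¬ j.val < 3 := by
        intro h
        exact hj ⟨⟨j.val, by omega⟩, rfl⟩
      simp [thr, this])]
    rfl
  set A := φ (sgn (Fin n) k (thr n)) with hAdef
  have hT : ρ (sgn (Fin 5) k three) = toLin' (A : Matrix (Fin N) (Fin N) k) := by
    show toLin' _ = _
    rw [hthr]
  have hsq : sgn (Fin n) k (thr n) * sgn (Fin n) k (thr n) = 1 := by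
    rw [← map_mul]
    have : thr n * thr n = 1 := by
      funext i
      exact Int.units_mul_self _
    rw [this, map_one]
  have hA : A * A = 1 := by rw [hAdef, ← map_mul, hsq, map_one]
  have hTT : ρ (sgn (Fin 5) k three) * ρ (sgn (Fin 5) k three) = 1 := by
    rw [hT, Module.End.mul_eq_comp, ← toLin'_mul, ← Units.val_mul, hA]
    exact toLin'_one
  set p := finrank k (eig (ρ (sgn (Fin 5) k three)) 1) with hp
  set q := finrank k (eig (ρ (sgn (Fin 5) k three)) (-1)) with hq
  have hN : p + q = N := by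
    rw [hp, hq, finrank_inv _ hTT]
    simp
  have htr : (A : Matrix (Fin N) (Fin N) k).trace = (p : k) - q := by
    have h3 := trace_inv _ hTT
    rw [hT, trace_toLin'_eq] at h3
    rw [h3, ← hT, ← hp]
    have : (finrank k (Fin N → k) : k) = (p : k) + q := by
      rw [Module.finrank_fin_fun, ← hN]
      push_cast
      ring
    rw [this]
    ring
  have hdet : (A : Matrix (Fin N) (Fin N) k).det = 1 := by
    obtain ⟨x, y, hxy⟩ := three_comm i hi.symm
    have h3 := congrArg (fun z => Matrix.GeneralLinearGroup.det (φ (emb k (Fin.castLE hn) hf z))) hxy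
    simp only [map_mul] at h3
    rw [hthr] at h3
    have h4 : Matrix.GeneralLinearGroup.det A = 1 := by
      have h5 : Matrix.GeneralLinearGroup.det A * (Matrix.GeneralLinearGroup.det (φ (emb k (Fin.castLE hn) hf x)) *
        Matrix.GeneralLinearGroup.det (φ (emb k (Fin.castLE hn) hf y))) =
        Matrix.GeneralLinearGroup.det (φ (emb k (Fin.castLE hn) hf x)) *
        Matrix.GeneralLinearGroup.det (φ (emb k (Fin.castLE hn) hf y)) := by
        have h6 : ∀ a b c : kˣ, a * b = c * (b * a) → c * (a * b) = a * b := by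
          intro a b c h
          rw [mul_comm a b, ← h, mul_comm a b]
        exact h6 _ _ _ h3
      exact mul_eq_right.1 h5
    exact congrArg Units.val h4
  exact exists_diag χ₁ χ₂ A hA p q hN htr (even_of_det A hA p q hN htr hdet) (eig_le ρ h2 c hc' i hi.symm)

theorem trace_thr {n : ℕ} (hn : 3 ≤ n) : (sgn (Fin n) k (thr n)).1.trace = 2 * (n : k) - 12 := by
  show (fromBlocks _ _ _ _).trace = _
  have h0 : ∀ D : Matrix (Fin n) (Fin n) k, (fromBlocks D 0 0 D).trace = D.trace + D.trace := by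
    intro D
    simp [Matrix.trace, Fintype.sum_sum_type]
  rw [h0, trace_diagonal]
  obtain ⟨m, rfl⟩ : ∃ m, n = 3 + m := ⟨n - 3, by omega⟩
  have h1 : ∑ j : Fin (3 + m), ((thr (3 + m) j : ℤ) : k) = (m : k) - 3 := by
    rw [Fin.sum_univ_add]
    have h2 : ∀ j : Fin 3, ((thr (3 + m) (Fin.castAdd m j) : ℤ) : k) = -1 := by
      intro j
      simp [thr]
    have h3 : ∀ j : Fin m, ((thr (3 + m) (Fin.natAdd 3 j) : ℤ) : k) = 1 := by
      intro j
      simp [thr]
    simp only [h2, h3, Finset.sum_const, Finset.card_univ, Fintype.card_fin]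
    simp
    ring
  rw [h1]
  push_cast
  ring

end alg

section main
variable {K : Type} [Field K] [NumberField K]

theorem frob_uniq {χ₁ χ₂ : GK K →* ℤˣ} (v : HeightOneSpectrum (𝓞 K))
    (hv : v ∉ {v : HeightOneSpectrum (𝓞 K) | ∃ τ, IsInert v τ ∧ (χ₁ τ ≠ 1 ∨ χ₂ τ ≠ 1)}) (σ τ : GK K)
    (hσ : IsFrob v σ) (hτ : IsFrob v τ) : χ₁ τ = χ₁ σ ∧ χ₂ τ = χ₂ σ := by
  obtain ⟨ρ, i, hi, rfl⟩ := (Pool.Agent.W401.Frob.main K).2.1 v σ τ hσ hτ
  have h12 : χ₁ i = 1 ∧ χ₂ i = 1 := by
    by_contra hcon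
    apply hv
    refine ⟨i, hi, ?_⟩
    by_contra h2
    push Not at h2
    exact hcon h2
  obtain ⟨h1, h2⟩ := h12
  simp only [map_mul, map_inv, h1, h2, mul_one]
  constructor <;> rw [mul_comm, inv_mul_cancel_left]

/-- no symplectic parameter -/
theorem no_param {k : Type*} [Field k] [CharZero k] [TopologicalSpace k] [IsTopologicalRing k] [T2Space k]
    {χ₁ χ₂ : GK K →* ℤˣ} (H : BG.Indep2 χ₁ χ₂) {n : ℕ} (hn : 3 ≤ n) (r : GK K →* symplecticGroup (Fin n) k)
    (hr : Continuous r) (T : Set (HeightOneSpectrum (𝓞 K))) (hT : T.Finite)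
    (h1 : ∀ v ∉ T, ∀ σ, IsFrob v σ → (r σ).1 * (r σ).1 = 1 ∧
      (¬ (χ₁ σ = 1 ∧ χ₂ σ = 1) → (r σ).1.trace = 2 * (n : k) - 12)) : False := by
  have key : ∀ g : GK K, ¬ (χ₁ g = 1 ∧ χ₂ g = 1) → (r g).1 * (r g).1 = 1 ∧ (r g).1.trace = 2 * (n : k) - 12 := by
    intro g hg
    by_contra hne
    have hr' : Continuous fun x => (r x).1 := continuous_subtype_val.comp hr
    have hW1 : IsOpen {x | ¬ ((r x).1 * (r x).1 = 1 ∧ (r x).1.trace = 2 * (n : k) - 12)} := by
      have : IsClosed {x | (r x).1 * (r x).1 = 1 ∧ (r x).1.trace = 2 * (n : k) - 12} :=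
        (isClosed_eq (hr'.mul hr') continuous_const).inter (isClosed_eq hr'.matrix_trace continuous_const)
      exact this.isOpen_compl
    have hW2 : ∀ (χ : GK K →* ℤˣ), IsOpen (χ.ker : Set (GK K)) → IsOpen {x | χ x = χ g} := by
      intro χ hχ
      have : {x | χ x = χ g} = (fun x => g⁻¹ * x) ⁻¹' (χ.ker : Set (GK K)) := by
        ext x
        simp only [Set.mem_setOf_eq, Set.mem_preimage, SetLike.mem_coe, MonoidHom.mem_ker, map_mul, map_inv]
        rw [inv_mul_eq_one, eq_comm]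
      rw [this]
      exact hχ.preimage (continuous_mul_left g⁻¹)
    obtain ⟨v, hv, σ, hσ, h2, h3, h4⟩ := BG.exists_frob_open _
      (hW1.inter ((hW2 χ₁ H.opn₁).inter (hW2 χ₂ H.opn₂))) g ⟨hne, rfl, rfl⟩ T hT
    have hinv : ∀ q : ℤˣ, q⁻¹ = q := by decide
    have h3' : χ₁ σ = χ₁ g := by rw [← h3, map_inv, hinv]
    have h4' : χ₂ σ = χ₂ g := by rw [← h4, map_inv, hinv]
    obtain ⟨h5, h6⟩ := h1 v hv σ hσ
    apply h2
    have h7 : r σ * r σ = 1 := Subtype.ext h5
    have h8 : r σ⁻¹ = r σ := by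
      rw [map_inv]
      exact inv_eq_of_mul_eq_one_left h7
    rw [h8]
    exact ⟨h5, h6 (by rw [h3', h4']; exact hg)⟩
  obtain ⟨σ₁, h2, h3⟩ := H.surj (-1) 1
  obtain ⟨σ₂, h4, h5⟩ := H.surj 1 (-1)
  have k1 := key σ₁ (by rw [h2, h3]; decide)
  have k2 := key σ₂ (by rw [h4, h5]; decide)
  have k3 := key (σ₁ * σ₂) (by rw [map_mul, map_mul, h2, h3, h4, h5]; decide)
  refine no_klein (r σ₁) (r σ₂) (Subtype.ext k1.1) (Subtype.ext k2.1) ?_ ?_
  · rw [← map_mul]
    exact Subtype.ext k3.1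
  · intro X hX
    rw [Fintype.card_fin]
    rcases hX with rfl | rfl | rfl
    · exact k1.2
    · exact k2.2
    · have := k3.2
      rw [map_mul] at this
      exact this

end main

end Pool.Agent.H498.Sp
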